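import Pool.Agent.W426.SM.Stm

/-! # S_RC1: contour shift in several variables -/

set_option autoImplicit false

namespace Pool.Agent.W930.SM.RC1

open MeasureTheory Pool.Agent.W426.SM

noncomputable section

variable {B : Type} [Fintype B]

/-- polynomials are dominated by exponentials -/
theorem poly_bound (P : MvPolynomial B ℂ) : ∃ C : ℝ, 0 ≤ C ∧ ∀ z : B → ℂ,
    ‖MvPolynomial.eval z P‖ ≤ C * Real.exp (∑ b, ‖z b‖) := by
  refine ⟨∑ d ∈ P.support, ‖P.coeff d‖ * ∏ b, ((d b).factorial : ℝ), by positivity, ?_⟩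
  intro z
  rw [MvPolynomial.eval_eq', Finset.sum_mul]
  refine (norm_sum_le _ _).trans (Finset.sum_le_sum ?_)
  intro d _
  rw [norm_mul, norm_prod, mul_assoc]
  refine mul_le_mul_of_nonneg_left ?_ (norm_nonneg _)
  rw [Real.exp_sum, ← Finset.prod_mul_distrib]
  refine Finset.prod_le_prod (fun b _ => norm_nonneg _) ?_
  intro b _
  rw [norm_pow]
  have h := Real.pow_div_factorial_le_exp ‖z b‖ (norm_nonneg (z b)) (d b)
  have h2 : (0 : ℝ) < (d b).factorial := by exact_mod_cast Nat.factorial_pos _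
  rw [div_le_iff₀ h2] at h
  linarith

/-- the point -/
def pt (x ω y : B → ℝ) (ζ : ℂ) (b : B) : ℂ := (x b : ℂ) + y b * Complex.I + ζ * ω b

omit [Fintype B] in
theorem pt_re (x ω y : B → ℝ) (ζ : ℂ) (b : B) : (pt x ω y ζ b).re = x b + ζ.re * ω b := by
  simp [pt]

omit [Fintype B] in
theorem pt_im (x ω y : B → ℝ) (ζ : ℂ) (b : B) : (pt x ω y ζ b).im = y b + ζ.im * ω b := by
  simp [pt]

theorem aff_re (a : ℝ) (ℓ : B → ℝ) (z : B → ℂ) : (aff a ℓ z).re = a + ∑ b, ℓ b * (z b).re := by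
  simp [aff, Complex.re_sum]

/-- lower bound of the denominators -/
theorem denom {M : ℕ} (a : Fin M → ℝ) (ℓ : Fin M → B → ℝ) (x ω : B → ℝ)
    (h : ∀ r : ℝ, 0 ≤ r → r ≤ 1 → ∀ q, a q + ∑ b, ℓ q b * (x b + r * ω b) ≠ 0) :
    ∃ c : ℝ, 0 < c ∧ ∀ (z : B → ℂ) (r : ℝ), 0 ≤ r → r ≤ 1 → (∀ b, (z b).re = x b + r * ω b) →
      c ≤ ‖∏ q, aff (a q) (ℓ q) z‖ := by
  let F : ℝ → ℝ := fun r => ∏ q, |a q + ∑ b, ℓ q b * (x b + r * ω b)|
  have hF : Continuous F := by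
    unfold F
    fun_prop
  obtain ⟨r0, hr0, hmin⟩ := isCompact_Icc.exists_isMinOn (Set.nonempty_Icc.mpr (zero_le_one' ℝ))
    hF.continuousOn
  refine ⟨F r0, ?_, ?_⟩
  · exact Finset.prod_pos fun q _ => abs_pos.mpr (h r0 hr0.1 hr0.2 q)
  · intro z r h0 h1 hz
    refine (hmin ⟨h0, h1⟩).trans ?_
    rw [norm_prod]
    refine Finset.prod_le_prod (fun q _ => abs_nonneg _) ?_
    intro q _
    refine le_trans (le_of_eq ?_) (Complex.abs_re_le_norm _)
    rw [aff_re]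
    congr 2
    exact Finset.sum_congr rfl fun b _ => by rw [hz]

/-- the dominating function -/
def gau (y : B → ℝ) : ℝ := ∏ b, Real.exp (-(1 / 4) * y b ^ 2)

theorem gau_int : Integrable (gau : (B → ℝ) → ℝ) := by
  unfold gau
  exact Integrable.fintype_prod (fun _ => integrable_exp_neg_mul_sq (by norm_num))

theorem bound {M : ℕ} (η : B → ℝ) (R : ℝ) (P : MvPolynomial B ℂ)
    (a : Fin M → ℝ) (ℓ : Fin M → B → ℝ) (x ω : B → ℝ)
    (h : ∀ r : ℝ, 0 ≤ r → r ≤ 1 → ∀ q, a q + ∑ b, ℓ q b * (x b + r * ω b) ≠ 0) :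
    ∃ C : ℝ, 0 ≤ C ∧ ∀ (y : B → ℝ) (ζ : ℂ), 0 ≤ ζ.re → ζ.re ≤ 1 → 0 ≤ ζ.im → ζ.im ≤ 1 →
      ‖EE η R P a ℓ (pt x ω y ζ)‖ ≤ C * gau y := by
  obtain ⟨C1, hC1, hP⟩ := poly_bound P
  obtain ⟨c, hc, hden⟩ := denom a ℓ x ω h
  let ρ : B → ℝ := fun b => |x b| + |ω b|
  let D : ℝ := ∏ b, Real.exp (|R| * |η b| * ρ b + ρ b ^ 2 + ρ b + 1 / 2 + ω b ^ 2 / 2)
  refine ⟨D * C1 / c, by positivity, ?_⟩
  intro y ζ h0 h1 h2 h3
  have e1 : ‖Complex.exp ((R : ℂ) * (∑ b, (η b : ℂ) * pt x ω y ζ b) + ∑ b, pt x ω y ζ b ^ 2)‖ =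
      ∏ b, Real.exp (R * (η b * (x b + ζ.re * ω b)) + (x b + ζ.re * ω b) ^ 2 -
        (y b + ζ.im * ω b) ^ 2) := by
    rw [Complex.norm_exp, ← Real.exp_sum]
    congr 1
    rw [Complex.add_re, Complex.re_ofReal_mul, Complex.re_sum, Complex.re_sum, Finset.mul_sum,
      ← Finset.sum_add_distrib]
    refine Finset.sum_congr rfl fun b _ => ?_
    rw [Complex.re_ofReal_mul, pow_two, Complex.mul_re, pt_re, pt_im]
    ring
  have e2 := hP (pt x ω y ζ)
  have e3 := hden (pt x ω y ζ) ζ.re h0 h1 (pt_re x ω y ζ)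
  have e4 : ‖Complex.exp ((R : ℂ) * (∑ b, (η b : ℂ) * pt x ω y ζ b) + ∑ b, pt x ω y ζ b ^ 2)‖ *
      Real.exp (∑ b, ‖pt x ω y ζ b‖) ≤ D * gau y := by
    rw [e1, Real.exp_sum, ← Finset.prod_mul_distrib]
    unfold D gau
    rw [← Finset.prod_mul_distrib]
    refine Finset.prod_le_prod (fun b _ => by positivity) ?_
    intro b _
    rw [← Real.exp_add, ← Real.exp_add]
    apply Real.exp_le_exp.mpr
    have hn : ‖pt x ω y ζ b‖ ≤ |x b + ζ.re * ω b| + |y b + ζ.im * ω b| := by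
      refine (Complex.norm_le_abs_re_add_abs_im _).trans ?_
      rw [pt_re, pt_im]
    have hω : |ζ.re * ω b| ≤ |ω b| := by
      rw [abs_mul, abs_of_nonneg h0]
      exact mul_le_of_le_one_left (abs_nonneg _) h1
    have hre : |x b + ζ.re * ω b| ≤ ρ b := (abs_add_le _ _).trans (by unfold ρ; linarith)
    have h5 : R * (η b * (x b + ζ.re * ω b)) ≤ |R| * |η b| * ρ b := by
      refine (le_abs_self _).trans ?_
      rw [abs_mul, abs_mul, mul_assoc]
      gcongr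
    have h6 : (x b + ζ.re * ω b) ^ 2 ≤ ρ b ^ 2 := by
      rw [← sq_abs]
      gcongr
    have h7 : |y b + ζ.im * ω b| - (y b + ζ.im * ω b) ^ 2 ≤ 1 / 2 - (y b + ζ.im * ω b) ^ 2 / 2 := by
      have := sq_nonneg (|y b + ζ.im * ω b| - 1)
      have h8 := sq_abs (y b + ζ.im * ω b)
      nlinarith
    have h9 : - (y b + ζ.im * ω b) ^ 2 / 2 ≤ -(1 / 4) * y b ^ 2 + ω b ^ 2 / 2 := by
      have h10 : (ζ.im * ω b) ^ 2 ≤ ω b ^ 2 := by
        rw [mul_pow]
        have : ζ.im ^ 2 ≤ 1 := by nlinarith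
        nlinarith [sq_nonneg (ω b)]
      nlinarith [sq_nonneg (y b + 2 * (ζ.im * ω b))]
    linarith
  unfold EE
  rw [norm_mul, norm_div]
  calc _ ≤ ‖Complex.exp ((R : ℂ) * (∑ b, (η b : ℂ) * pt x ω y ζ b) + ∑ b, pt x ω y ζ b ^ 2)‖ *
      ((C1 * Real.exp (∑ b, ‖pt x ω y ζ b‖)) / c) := by
        gcongr
    _ = (‖Complex.exp ((R : ℂ) * (∑ b, (η b : ℂ) * pt x ω y ζ b) + ∑ b, pt x ω y ζ b ^ 2)‖ *
      Real.exp (∑ b, ‖pt x ω y ζ b‖)) * C1 / c := by ring
    _ ≤ (D * gau y) * C1 / c := by gcongr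
    _ = _ := by ring

/-- measurability -/
theorem EE_meas {M : ℕ} (η : B → ℝ) (R : ℝ) (P : MvPolynomial B ℂ)
    (a : Fin M → ℝ) (ℓ : Fin M → B → ℝ) : Measurable (EE η R P a ℓ) := by
  unfold EE aff
  have h1 : Continuous fun z : B → ℂ => MvPolynomial.eval z P := MvPolynomial.continuous_eval P
  have h2 : Continuous fun z : B → ℂ =>
      Complex.exp ((R : ℂ) * (∑ b, (η b : ℂ) * z b) + ∑ b, z b ^ 2) := by fun_prop
  have h3 : Continuous fun z : B → ℂ => ∏ q, ((a q : ℂ) + ∑ b, (ℓ q b : ℂ) * z b) := by fun_prop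
  exact h2.measurable.mul (h1.measurable.div h3.measurable)

theorem holo {M : ℕ} (η : B → ℝ) (R : ℝ) (P : MvPolynomial B ℂ)
    (a : Fin M → ℝ) (ℓ : Fin M → B → ℝ) (x ω : B → ℝ)
    (h : ∀ r : ℝ, 0 ≤ r → r ≤ 1 → ∀ q, a q + ∑ b, ℓ q b * (x b + r * ω b) ≠ 0) (y : B → ℝ)
    (ζ : ℂ) (h0 : 0 ≤ ζ.re) (h1 : ζ.re ≤ 1) :
    DifferentiableAt ℂ (fun ζ => EE η R P a ℓ (pt x ω y ζ)) ζ := by
  unfold EE
  simp only [MvPolynomial.eval_eq']
  have hne : ∏ q, aff (a q) (ℓ q) (pt x ω y ζ) ≠ 0 := by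
    rw [Finset.prod_ne_zero_iff]
    intro q _ h2
    apply h ζ.re h0 h1 q
    have h3 := congrArg Complex.re h2
    rw [aff_re, Complex.zero_re] at h3
    rw [← h3]
    congr 1
    exact Finset.sum_congr rfl fun b _ => by rw [pt_re]
  have hpt : ∀ b, Differentiable ℂ fun ζ : ℂ => pt x ω y ζ b := by
    intro b
    unfold pt
    fun_prop
  have d1 : DifferentiableAt ℂ (fun ζ => Complex.exp ((R : ℂ) * (∑ b, (η b : ℂ) * pt x ω y ζ b) +
      ∑ b, pt x ω y ζ b ^ 2)) ζ := by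
    fun_prop
  have d2 : DifferentiableAt ℂ (fun ζ => ∑ d ∈ P.support, P.coeff d *
      ∏ b, pt x ω y ζ b ^ d b) ζ := by
    fun_prop
  have d3 : DifferentiableAt ℂ (fun ζ => ∏ q, aff (a q) (ℓ q) (pt x ω y ζ)) ζ := by
    unfold aff
    fun_prop
  exact d1.mul (d2.div d3 hne)

omit [Fintype B] in
theorem pt_zero (x ω y : B → ℝ) : pt x ω y 0 = fun b => (x b : ℂ) + y b * Complex.I := by
  funext b
  simp [pt]

omit [Fintype B] in
theorem pt_one (x ω y : B → ℝ) : pt x ω y 1 =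
    fun b => ((x b + ω b : ℝ) : ℂ) + y b * Complex.I := by
  funext b
  simp only [pt]
  push_cast
  ring

omit [Fintype B] in
theorem pt_shift (x ω y : B → ℝ) (s t : ℝ) : pt x ω y ((s : ℂ) + (t : ℂ) * Complex.I) =
    pt x ω (fun b => y b + t * ω b) (s : ℂ) := by
  funext b
  simp only [pt]
  push_cast
  ring

omit [Fintype B] in
theorem meas_pt (x ω : B → ℝ) : Continuous fun p : (B → ℝ) × ℂ => pt x ω p.1 p.2 := by
  unfold pt
  fun_prop

theorem int_pt {M : ℕ} (η : B → ℝ) (R : ℝ) (P : MvPolynomial B ℂ)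
    (a : Fin M → ℝ) (ℓ : Fin M → B → ℝ) (x ω : B → ℝ)
    (h : ∀ r : ℝ, 0 ≤ r → r ≤ 1 → ∀ q, a q + ∑ b, ℓ q b * (x b + r * ω b) ≠ 0) (ζ : ℂ)
    (h0 : 0 ≤ ζ.re) (h1 : ζ.re ≤ 1) (h2 : 0 ≤ ζ.im) (h3 : ζ.im ≤ 1) :
    Integrable (fun y : B → ℝ => EE η R P a ℓ (pt x ω y ζ)) := by
  obtain ⟨C, hC, hb⟩ := bound η R P a ℓ x ω h
  refine Integrable.mono' (gau_int.const_mul C) ?_ ?_
  · have : Continuous fun y : B → ℝ => pt x ω y ζ := by
      unfold pt
      fun_prop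
    exact ((EE_meas η R P a ℓ).comp this.measurable).aestronglyMeasurable
  · exact Filter.Eventually.of_forall fun y => hb y ζ h0 h1 h2 h3

theorem int4 (f1 f2 f3 f4 : (B → ℝ) → ℂ) (h1 : Integrable f1) (h2 : Integrable f2)
    (h3 : Integrable f3) (h4 : Integrable f4) :
    ∫ y, (f1 y - f2 y + Complex.I • f3 y - Complex.I • f4 y) =
      (∫ y, f1 y) - (∫ y, f2 y) + Complex.I • (∫ y, f3 y) - Complex.I • (∫ y, f4 y) := by
  have a1 : Integrable fun y => f1 y - f2 y := h1.sub h2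
  have a2 : Integrable fun y => Complex.I • f3 y := h3.smul Complex.I
  have a3 : Integrable fun y => Complex.I • f4 y := h4.smul Complex.I
  have a4 : Integrable fun y => f1 y - f2 y + Complex.I • f3 y := a1.add a2
  rw [integral_sub a4 a3, integral_add a1 a2, integral_sub h1 h2, integral_smul, integral_smul]

theorem main : S_RC1 := by
  intro B _ M η R P a ℓ x ω h
  have hcov := h
  obtain ⟨C, hC, hb⟩ := bound η R P a ℓ x ω h
  let f : (B → ℝ) → ℂ → ℂ := fun y ζ => EE η R P a ℓ (pt x ω y ζ)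
  have hI0 := int_pt η R P a ℓ x ω h 0 (by simp) (by simp) (by simp) (by simp)
  rw [show (fun y : B → ℝ => EE η R P a ℓ (pt x ω y 0)) =
    fun y : B → ℝ => EE η R P a ℓ (fun b => (x b : ℂ) + y b * Complex.I) from
    funext fun y => by rw [pt_zero]] at hI0
  refine ⟨hI0, ?_⟩
  -- joint integrability along a curve
  have joint : ∀ (c : ℝ → ℂ), Continuous c → (∀ s ∈ Set.uIoc (0 : ℝ) 1, 0 ≤ (c s).re ∧
      (c s).re ≤ 1 ∧ 0 ≤ (c s).im ∧ (c s).im ≤ 1) →
      Integrable (Function.uncurry fun (s : ℝ) (y : B → ℝ) => f y (c s))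
        ((volume.restrict (Set.uIoc (0 : ℝ) 1)).prod volume) := by
    intro c hc hcs
    have hg : Integrable (fun p : ℝ × (B → ℝ) => C * gau p.2)
        ((volume.restrict (Set.uIoc (0 : ℝ) 1)).prod volume) := by
      have hfin : IsFiniteMeasure (volume.restrict (Set.uIoc (0 : ℝ) 1)) := by
        rw [Set.uIoc_of_le zero_le_one]
        infer_instance
      exact (gau_int.comp_snd _).const_mul C
    refine hg.mono' ?_ ?_
    · have : Continuous fun p : ℝ × (B → ℝ) => pt x ω p.2 (c p.1) :=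
        (meas_pt x ω).comp (continuous_snd.prodMk (hc.comp continuous_fst))
      exact ((EE_meas η R P a ℓ).comp this.measurable).aestronglyMeasurable
    · have hm : MeasurableSet {p : ℝ × (B → ℝ) | p.1 ∈ Set.uIoc (0 : ℝ) 1} :=
        measurableSet_uIoc.preimage measurable_fst
      have : ∀ᵐ p ∂((volume.restrict (Set.uIoc (0 : ℝ) 1)).prod (volume : Measure (B → ℝ))),
          p.1 ∈ Set.uIoc (0 : ℝ) 1 := by
        have h1 : ∀ᵐ s ∂(volume.restrict (Set.uIoc (0 : ℝ) 1)), s ∈ Set.uIoc (0 : ℝ) 1 :=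
          ae_restrict_mem measurableSet_uIoc
        exact Measure.quasiMeasurePreserving_fst.ae h1
      filter_upwards [this] with p hp
      obtain ⟨k0, k1, k2, k3⟩ := hcs p.1 hp
      exact hb p.2 (c p.1) k0 k1 k2 k3
  have swap : ∀ (c : ℝ → ℂ), Continuous c → (∀ s ∈ Set.uIoc (0 : ℝ) 1, 0 ≤ (c s).re ∧
      (c s).re ≤ 1 ∧ 0 ≤ (c s).im ∧ (c s).im ≤ 1) →
      Integrable (fun y => ∫ s in (0 : ℝ)..1, f y (c s)) ∧
      ∫ y, (∫ s in (0 : ℝ)..1, f y (c s)) = ∫ s in (0 : ℝ)..1, ∫ y, f y (c s) := by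
    intro c hc hcs
    have hj := joint c hc hcs
    refine ⟨?_, (intervalIntegral_integral_swap hj).symm⟩
    have := hj.integral_prod_right
    simpa [intervalIntegral.integral_of_le, Set.uIoc_of_le] using this
  -- the four sides
  have c1 := swap (fun s => (s : ℂ)) (by fun_prop) (by
    intro s hs
    rw [Set.uIoc_of_le zero_le_one] at hs
    simp [hs.1.le, hs.2])
  have c2 := swap (fun s => (s : ℂ) + Complex.I) (by fun_prop) (by
    intro s hs
    rw [Set.uIoc_of_le zero_le_one] at hs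
    simp [hs.1.le, hs.2])
  have c3 := swap (fun t => 1 + (t : ℂ) * Complex.I) (by fun_prop) (by
    intro s hs
    rw [Set.uIoc_of_le zero_le_one] at hs
    simp [hs.1.le, hs.2])
  have c4 := swap (fun t => (t : ℂ) * Complex.I) (by fun_prop) (by
    intro s hs
    rw [Set.uIoc_of_le zero_le_one] at hs
    simp [hs.1.le, hs.2])
  have rect : ∀ y : B → ℝ, (∫ s in (0 : ℝ)..1, f y (s : ℂ)) -
      (∫ s in (0 : ℝ)..1, f y ((s : ℂ) + Complex.I)) +
      Complex.I • (∫ t in (0 : ℝ)..1, f y (1 + (t : ℂ) * Complex.I)) -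
      Complex.I • (∫ t in (0 : ℝ)..1, f y ((t : ℂ) * Complex.I)) = 0 := by
    intro y
    have := Complex.integral_boundary_rect_eq_zero_of_differentiableOn (f y) 0 (1 + Complex.I) (by
      intro ζ hζ
      apply DifferentiableAt.differentiableWithinAt
      rw [Complex.mem_reProdIm] at hζ
      simp only [Complex.zero_re, Complex.add_re, Complex.one_re, Complex.I_re, add_zero] at hζ
      rw [Set.uIcc_of_le zero_le_one] at hζ
      exact holo η R P a ℓ x ω h y ζ hζ.1.1 hζ.1.2)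
    simpa using this
  have trans : ∀ (ζ : ℝ) (t : ℝ), ∫ y, f y ((ζ : ℂ) + (t : ℂ) * Complex.I) =
      ∫ y, f y (ζ : ℂ) := by
    intro s t
    have h1 : ∀ y, f y ((s : ℂ) + (t : ℂ) * Complex.I) = f (y + t • ω) (s : ℂ) := by
      intro y
      simp only [f]
      rw [pt_shift]
      rfl
    simp_rw [h1]
    exact integral_add_right_eq_self (fun y => f y (s : ℂ)) (t • ω)
  have tot : ∫ y, ((∫ s in (0 : ℝ)..1, f y (s : ℂ)) -
      (∫ s in (0 : ℝ)..1, f y ((s : ℂ) + Complex.I)) +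
      Complex.I • (∫ t in (0 : ℝ)..1, f y (1 + (t : ℂ) * Complex.I)) -
      Complex.I • (∫ t in (0 : ℝ)..1, f y ((t : ℂ) * Complex.I))) = 0 := by
    simp_rw [rect]
    simp
  rw [int4 _ _ _ _ c1.1 c2.1 c3.1 c4.1, c1.2, c2.2, c3.2, c4.2] at tot
  have t2 : ∫ s in (0 : ℝ)..1, ∫ y, f y ((s : ℂ) + Complex.I) =
      ∫ s in (0 : ℝ)..1, ∫ y, f y (s : ℂ) := by
    congr 1
    funext s
    have := trans s 1
    simpa using this
  have t3 : ∫ t in (0 : ℝ)..1, ∫ y, f y (1 + (t : ℂ) * Complex.I) = ∫ y, f y 1 := by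
    have h1 : ∀ t : ℝ, ∫ y, f y (1 + (t : ℂ) * Complex.I) = ∫ y, f y 1 := by
      intro t
      have := trans 1 t
      simpa using this
    simp_rw [h1]
    simp
  have t4 : ∫ t in (0 : ℝ)..1, ∫ y, f y ((t : ℂ) * Complex.I) = ∫ y, f y 0 := by
    have h1 : ∀ t : ℝ, ∫ y, f y ((t : ℂ) * Complex.I) = ∫ y, f y 0 := by
      intro t
      have := trans 0 t
      simpa using this
    simp_rw [h1]
    simp
  rw [t2, t3, t4, sub_self, zero_add, ← smul_sub, smul_eq_zero] at tot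
  have t5 := sub_eq_zero.mp (tot.resolve_left Complex.I_ne_zero)
  simp only [f] at t5
  simp_rw [pt_zero, pt_one] at t5
  exact t5.symm

end

end Pool.Agent.W930.SM.RC1
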